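import Mathlib

/-!
Krull dimension of finitely generated domains over a field equals the transcendence degree,
and a Jacobian criterion for algebraic independence in characteristic zero.
-/

namespace Pool.Agent.H37

open Order

/-- Krull dimension does not change along integral injective extensions. -/
theorem ringKrullDim_eq_of_integral_injective (R S : Type*) [CommRing R] [CommRing S]
    [Algebra R S] [Algebra.IsIntegral R S] (hinj : Function.Injective (algebraMap R S)) :
    ringKrullDim S = ringKrullDim R := by
  have : FaithfulSMul R S := (faithfulSMul_iff_algebraMap_injective R S).mpr hinj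
  apply le_antisymm
  · refine Order.krullDim_le_of_strictMono (PrimeSpectrum.comap (algebraMap R S)) ?_
    intro P Q hPQ
    have := P.2
    exact Ideal.IsIntegral.comap_lt_comap (R := R) (I := P.asIdeal) (J := Q.asIdeal) hPQ
  · by_cases hR : Nontrivial R
    · unfold ringKrullDim
      rw [Order.krullDim]
      apply iSup_le
      intro l
      obtain ⟨P, hP⟩ := Ideal.nonempty_primesOver (S := S) (l.head.asIdeal)
      obtain ⟨hPp, hPl⟩ := hP
      obtain ⟨L, hL, -, -⟩ := Ideal.exists_ltSeries_of_hasGoingUp (S := S) l P
      rw [← hL]
      exact LTSeries.length_le_krullDim L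
    · rw [not_nontrivial_iff_subsingleton] at hR
      have : Subsingleton S := RingHom.codomain_trivial (algebraMap R S)
      simp [ringKrullDim_eq_bot_of_subsingleton]

/-- Krull dimension of a finitely generated domain over a field is its transcendence degree. -/
theorem exists_ringKrullDim_eq_trdeg (k A : Type*) [Field k] [CommRing A] [IsDomain A]
    [Algebra k A] [Algebra.FiniteType k A] :
    ∃ s : ℕ, ringKrullDim A = s ∧ Algebra.trdeg k A = s := by
  obtain ⟨s, g, ginj, gint⟩ := exists_integral_inj_algHom_of_fg k A
  algebraize [g.toRingHom]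
  have hint : Algebra.IsIntegral (MvPolynomial (Fin s) k) A := ⟨gint⟩
  have hfs : FaithfulSMul (MvPolynomial (Fin s) k) A :=
    (faithfulSMul_iff_algebraMap_injective _ _).mpr ginj
  refine ⟨s, ?_, ?_⟩
  · rw [ringKrullDim_eq_of_integral_injective (MvPolynomial (Fin s) k) A ginj]
    rw [MvPolynomial.ringKrullDim_of_isNoetherianRing]
    simp [ringKrullDim_eq_zero_of_field]
  · have : IsScalarTower k (MvPolynomial (Fin s) k) A :=
      IsScalarTower.of_algebraMap_eq (fun x => (g.commutes x).symm)
    have hb := (IsTranscendenceBasis.mvPolynomial (Fin s) k).algebraMap_comp (A := A)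
    have := hb.lift_cardinalMk_eq_trdeg
    simpa using this.symm

/-- Krull dimension of a finitely generated domain over a field, computed by a finite
transcendence basis. -/
theorem ringKrullDim_eq_of_isTranscendenceBasis {k A ι : Type*} [Field k] [CommRing A] [IsDomain A]
    [Algebra k A] [Algebra.FiniteType k A] [Fintype ι] (x : ι → A)
    (hx : IsTranscendenceBasis k x) : ringKrullDim A = Fintype.card ι := by
  obtain ⟨s, h1, h2⟩ := exists_ringKrullDim_eq_trdeg k A
  have := hx.lift_cardinalMk_eq_trdeg
  rw [h2] at this
  simp at this
  rw [h1, this]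

open MvPolynomial

/-- Chain rule for partial derivatives of a composed polynomial. -/
theorem pderiv_aeval {K σ : Type*} {n : ℕ} [CommRing K]
    (f : Fin n → MvPolynomial σ K) (j : σ) (p : MvPolynomial (Fin n) K) :
    pderiv j (aeval f p) = ∑ i, aeval f (pderiv i p) * pderiv j (f i) := by
  classical
  induction p using MvPolynomial.induction_on with
  | C a => simp
  | add p q hp hq => rw [map_add, map_add, hp, hq]; simp only [map_add, add_mul, Finset.sum_add_distrib]
  | mul_X p i hp =>
    rw [map_mul, aeval_X, pderiv_mul, hp]
    simp only [pderiv_mul, map_add, map_mul, aeval_X, pderiv_X, add_mul, Finset.sum_add_distrib]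
    congr 1
    · rw [Finset.sum_mul]
      exact Finset.sum_congr rfl fun x _ => by ring
    · rw [Finset.sum_eq_single i]
      · simp
      · intro b _ hb
        simp [hb.symm]
      · simp

theorem totalDegree_pderiv_le' {K σ : Type*} [CommRing K] (i : σ) (p : MvPolynomial σ K) (d : ℕ)
    (hp : p.totalDegree ≤ d + 1) : (pderiv i p).totalDegree ≤ d := by
  classical
  rw [totalDegree, Finset.sup_le_iff]
  intro m hm
  rw [mem_support_iff, coeff_pderiv] at hm
  have h1 : coeff (m + Finsupp.single i 1) p ≠ 0 := fun h => hm (by rw [h, zero_mul])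
  have h2 := le_totalDegree (mem_support_iff.mpr h1)
  have h3 := h2.trans hp
  rw [Finsupp.sum_add_index' (fun _ => rfl) (fun _ _ _ => rfl)] at h3
  simpa using h3

theorem eq_C_of_pderiv_eq_zero {K σ : Type*} [Field K] [CharZero K] (p : MvPolynomial σ K)
    (hp : ∀ i, pderiv i p = 0) : p = C (coeff 0 p) := by
  classical
  ext m
  rw [coeff_C]
  split_ifs with h
  · rw [h]
  · have hm : m ≠ 0 := fun h' => h h'.symm
    obtain ⟨i, hi⟩ := Finsupp.ne_iff.mp hm
    rw [Finsupp.zero_apply] at hi
    have h1 := coeff_pderiv (i := i) p (m - Finsupp.single i 1)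
    rw [hp i, coeff_zero] at h1
    have h2 : m - Finsupp.single i 1 + Finsupp.single i 1 = m := by
      apply tsub_add_cancel_of_le
      rw [Finsupp.single_le_iff]
      omega
    rw [h2] at h1
    rcases mul_eq_zero.mp h1.symm with h3 | h3
    · exact h3
    · exfalso
      have : ((((m - Finsupp.single i 1 : σ →₀ ℕ) i + 1 : ℕ)) : K) ≠ 0 := Nat.cast_ne_zero.mpr (by omega)
      apply this
      push_cast
      exact h3

/-- **Jacobian criterion** (easy direction): in characteristic zero, if some maximal minor of the
Jacobian matrix of `f` is nonzero at some point, then the `f i` are algebraically independent. -/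
theorem algebraicIndependent_of_jacobian {K σ : Type*} {n : ℕ} [Field K] [CharZero K]
    (f : Fin n → MvPolynomial σ K) (c : Fin n → σ) (a : σ → K)
    (h : (Matrix.of fun i j => eval a (pderiv (c j) (f i))).det ≠ 0) :
    AlgebraicIndependent K f := by
  classical
  have hJ : (Matrix.of fun i j => (pderiv (c j) (f i))).det ≠ 0 := by
    intro h0
    apply h
    have : (Matrix.of fun i j => eval a (pderiv (c j) (f i)))
        = (eval a).mapMatrix (Matrix.of fun i j => (pderiv (c j) (f i))) := by
      ext i j
      simp
    rw [this, ← RingHom.map_det, h0, map_zero]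
  rw [algebraicIndependent_iff]
  -- induction on the total degree
  suffices H : ∀ d : ℕ, ∀ p : MvPolynomial (Fin n) K, p.totalDegree ≤ d →
      aeval f p = 0 → p = 0 from fun p hp => H _ p le_rfl hp
  have hC : ∀ p : MvPolynomial (Fin n) K, p = C (coeff 0 p) → aeval f p = 0 → p = 0 := by
    intro p hc hf
    rw [hc] at hf ⊢
    rw [aeval_C] at hf
    have : coeff 0 p = 0 := by
      have := hf
      rw [MvPolynomial.algebraMap_eq] at this
      exact (C_eq_zero).mp this
    rw [this, C_0]
  intro d
  induction d with
  | zero =>
    intro p hp hf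
    exact hC p (totalDegree_eq_zero_iff_eq_C.mp (Nat.le_zero.mp hp)) hf
  | succ d ih =>
    intro p hp hf
    -- all partial derivatives vanish
    have hpd : ∀ i, aeval f (pderiv i p) = 0 := by
      have hv : (fun i => aeval f (pderiv i p)) = 0 := by
        apply Matrix.eq_zero_of_vecMul_eq_zero hJ
        ext j : 1
        simp only [Matrix.vecMul, dotProduct, Matrix.of_apply, Pi.zero_apply]
        rw [← pderiv_aeval, hf, map_zero]
      intro i
      exact congrFun hv i
    have hpd' : ∀ i, pderiv i p = 0 := fun i => ih _ (totalDegree_pderiv_le' i p d hp) (hpd i)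
    exact hC p (eq_C_of_pderiv_eq_zero p hpd') hf

end Pool.Agent.H37
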