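import Mathlib
import Pool.Agent.H37.KrullTrdeg

/-!
Basic definitions on affine cones, their secant varieties and their algebraic matroids,
with the lemmas needed for explicit examples.
-/

namespace Pool.Agent.H37.AlgMatroid

open MvPolynomial

variable {K : Type*} [Field K] {N : ℕ}

/-- The Zariski closure of a subset `V` of affine space `K^N`. -/
def zariskiClosure (V : Set (Fin N → K)) : Set (Fin N → K) :=
  zeroLocus K (vanishingIdeal K V)

/-- `X ⊆ K^N` is an irreducible affine cone: it is Zariski closed and its vanishing ideal is a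
homogeneous prime ideal of `K[z_1, …, z_N]`. -/
structure IsIrreducibleAffineCone (X : Set (Fin N → K)) : Prop where
  closed : zariskiClosure X = X
  prime : (vanishingIdeal K X).IsPrime
  homogeneous : ∀ p ∈ vanishingIdeal K X, ∀ d : ℕ,
    homogeneousComponent d p ∈ vanishingIdeal K X

/-- The secant variety `X^{2}`, the Zariski closure of `{x + y : x, y ∈ X}`. -/
def secant (X : Set (Fin N → K)) : Set (Fin N → K) :=
  zariskiClosure {w | ∃ x ∈ X, ∃ y ∈ X, x + y = w}

/-- The dimension of `X`: the Krull dimension of its coordinate ring. -/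
noncomputable def dim (X : Set (Fin N → K)) : WithBot ℕ∞ :=
  ringKrullDim (MvPolynomial (Fin N) K ⧸ vanishingIdeal K X)

/-- `X` is defective: `dim X^{2} < min (2 dim X) N`. -/
def IsDefective (X : Set (Fin N → K)) : Prop :=
  dim (secant X) < min (dim X + dim X) N

/-- `E` is independent in the algebraic matroid `M(X)`: `I(X) ∩ K[E] = 0`. -/
def Indep (X : Set (Fin N → K)) (E : Set (Fin N)) : Prop :=
  ∀ p ∈ vanishingIdeal K X, p ∈ supported K E → p = 0

/-- `M(X^{2})` is a Terracini union, i.e. `M(X^{2}) = M(X) ∨ M(X)`: the independent sets of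
`M(X^{2})` are exactly the unions of two independent sets of `M(X)`. -/
def IsTerraciniUnion (X : Set (Fin N → K)) : Prop :=
  ∀ E : Set (Fin N), Indep (secant X) E ↔ ∃ A B, Indep X A ∧ Indep X B ∧ E = A ∪ B

/-- `M(X)` has a loop: an element lying in no independent set. -/
def HasLoop (X : Set (Fin N → K)) : Prop :=
  ∃ e : Fin N, ∀ E : Set (Fin N), Indep X E → e ∉ E

/-- `M(X)` has a coloop: an element lying in every basis (maximal independent set). -/
def HasColoop (X : Set (Fin N → K)) : Prop :=
  ∃ e : Fin N, ∀ B : Set (Fin N), Maximal (Indep X) B → e ∈ B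

/-- A circuit of `M(X)`: a minimal dependent set. -/
def IsCircuit (X : Set (Fin N → K)) (C : Set (Fin N)) : Prop :=
  Minimal (fun E => ¬ Indep X E) C

/-- `M(X)` is connected: no partition of the ground set into two nonempty parts is such that
every circuit lies in one of the two parts. -/
def IsConnectedMatroid (X : Set (Fin N → K)) : Prop :=
  ∀ A : Set (Fin N), A.Nonempty → Aᶜ.Nonempty →
    ∃ C, IsCircuit X C ∧ (C ∩ A).Nonempty ∧ (C ∩ Aᶜ).Nonempty

/-! ### General lemmas -/

theorem vanishingIdeal_zariskiClosure (V : Set (Fin N → K)) :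
    vanishingIdeal K (zariskiClosure V) = vanishingIdeal K V := by
  apply le_antisymm
  · exact vanishingIdeal_anti_mono (zeroLocus_vanishingIdeal_le V)
  · exact le_vanishingIdeal_zeroLocus _

theorem zariskiClosure_idem (V : Set (Fin N → K)) :
    zariskiClosure (zariskiClosure V) = zariskiClosure V := by
  rw [zariskiClosure, vanishingIdeal_zariskiClosure, ← zariskiClosure]

/-- The classes of the coordinates in the coordinate ring. -/
noncomputable def zbar (X : Set (Fin N → K)) (i : Fin N) :
    MvPolynomial (Fin N) K ⧸ vanishingIdeal K X :=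
  Ideal.Quotient.mk _ (MvPolynomial.X i)

theorem aeval_zbar (X : Set (Fin N → K)) (p : MvPolynomial (Fin N) K) :
    aeval (zbar X) p = Ideal.Quotient.mk (vanishingIdeal K X) p := by
  have : aeval (zbar X) = Ideal.Quotient.mkₐ K (vanishingIdeal K X) := by
    ext i
    simp [zbar]
  rw [this]
  rfl

theorem indep_iff (X : Set (Fin N → K)) (E : Set (Fin N)) :
    Indep X E ↔ AlgebraicIndependent K (zbar X ∘ ((↑) : E → Fin N)) := by
  rw [algebraicIndependent_comp_subtype]
  unfold Indep
  constructor
  · intro h p hp h0
    rw [aeval_zbar, Ideal.Quotient.eq_zero_iff_mem] at h0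
    exact h p h0 hp
  · intro h p h0 hp
    apply h p hp
    rw [aeval_zbar, Ideal.Quotient.eq_zero_iff_mem]
    exact h0

theorem Indep.mono {X : Set (Fin N → K)} {E F : Set (Fin N)} (h : Indep X F) (hEF : E ⊆ F) :
    Indep X E := fun p hp hpE => h p hp (supported_mono hEF hpE)

theorem adjoin_range_zbar (X : Set (Fin N → K)) :
    Algebra.adjoin K (Set.range (zbar X)) = ⊤ := by
  rw [Algebra.adjoin_range_eq_range_aeval, AlgHom.range_eq_top]
  intro a
  obtain ⟨p, rfl⟩ := Ideal.Quotient.mk_surjective a
  exact ⟨p, aeval_zbar X p⟩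

/-- A transcendence basis can be chosen among generators. -/
theorem exists_indep_card {A : Type*} [CommRing A] [IsDomain A] [Algebra K A] (z : Fin N → A)
    (hgen : Algebra.adjoin K (Set.range z) = ⊤) (s : ℕ) (hs : Algebra.trdeg K A = s) :
    ∃ E : Finset (Fin N),
      AlgebraicIndependent K (z ∘ (Subtype.val : ↥(E : Set (Fin N)) → Fin N)) ∧ E.card = s := by
  classical
  have halg : Algebra.IsAlgebraic (Algebra.adjoin K (Set.range z)) A := by
    rw [hgen]
    have := Algebra.isIntegral_of_surjective
      (R := (⊤ : Subalgebra K A)) (B := A) (fun a => ⟨⟨a, trivial⟩, rfl⟩)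
    infer_instance
  obtain ⟨t, ht, htb⟩ := exists_isTranscendenceBasis_subset (R := K) (Set.range z)
  have hc := htb.lift_cardinalMk_eq_trdeg
  rw [hs] at hc
  choose g hg using fun a : t => ht a.2
  have hginj : Function.Injective g := by
    intro a b hab
    apply Subtype.ext
    rw [← hg a, ← hg b, hab]
  have hfin : Finite t := Finite.of_injective g hginj
  have hft : Fintype t := Fintype.ofFinite t
  have hcard : Fintype.card t = s := by
    simpa using hc
  refine ⟨Finset.univ.image g, ?_, ?_⟩
  · have hb := htb.1
    let e : t ≃ ((Finset.univ.image g : Finset (Fin N)) : Set (Fin N)) :=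
      Equiv.ofBijective (fun a => ⟨g a, by simp⟩) (by
        constructor
        · intro a b hab
          exact hginj (by simpa using hab)
        · rintro ⟨x, hx⟩
          simp at hx
          obtain ⟨a, ha, rfl⟩ := hx
          exact ⟨⟨a, ha⟩, rfl⟩)
    refine (algebraicIndependent_equiv' e (g := ((↑) : t → A)) ?_).mp hb
    ext a
    exact hg a
  · rw [Finset.card_image_of_injective _ hginj, Finset.card_univ, hcard]

/-- The rank of `M(X)` is the dimension of `X`. -/
theorem dim_eq (X : Set (Fin N → K)) (hprime : (vanishingIdeal K X).IsPrime) (r : ℕ)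
    (h1 : ∃ E : Finset (Fin N), Indep X (E : Set (Fin N)) ∧ E.card = r)
    (h2 : ∀ E : Finset (Fin N), Indep X (E : Set (Fin N)) → E.card ≤ r) : dim X = r := by
  classical
  have hdom : IsDomain (MvPolynomial (Fin N) K ⧸ vanishingIdeal K X) :=
    Ideal.Quotient.isDomain _
  obtain ⟨s, hs1, hs2⟩ := exists_ringKrullDim_eq_trdeg K
    (MvPolynomial (Fin N) K ⧸ vanishingIdeal K X)
  rw [dim, hs1]
  have hrs : r = s := by
    apply le_antisymm
    · obtain ⟨E, hE, hc⟩ := h1
      rw [indep_iff] at hE
      have := hE.lift_cardinalMk_le_trdeg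
      rw [hs2] at this
      simp at this
      omega
    · obtain ⟨E, hE, hc⟩ := exists_indep_card (zbar X) (adjoin_range_zbar X) s hs2
      rw [← hc]
      exact h2 E ((indep_iff X _).mpr hE)
  rw [hrs]

/-! ### Varieties given by a parametrisation -/

variable {σ : Type*}

/-- The Zariski closure of the image of a polynomial map. -/
def paramVariety (φ : Fin N → MvPolynomial σ K) : Set (Fin N → K) :=
  zariskiClosure (Set.range fun (a : σ → K) (i : Fin N) => eval a (φ i))

theorem eval_aeval_eq (φ : Fin N → MvPolynomial σ K) (a : σ → K) (p : MvPolynomial (Fin N) K) :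
    eval a (aeval φ p) = aeval (fun i => eval a (φ i)) p := by
  induction p using MvPolynomial.induction_on with
  | C c => simp
  | add p q hp hq => simp only [map_add, hp, hq]
  | mul_X p i hp => simp only [map_mul, hp, aeval_X]

theorem mem_vanishingIdeal_param [Infinite K] (φ : Fin N → MvPolynomial σ K)
    (p : MvPolynomial (Fin N) K) :
    p ∈ vanishingIdeal K (paramVariety φ) ↔ aeval φ p = 0 := by
  rw [paramVariety, vanishingIdeal_zariskiClosure, mem_vanishingIdeal_iff]
  constructor
  · intro h
    apply MvPolynomial.funext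
    intro a
    rw [eval_aeval_eq, h _ ⟨a, rfl⟩, map_zero]
  · rintro h _ ⟨a, rfl⟩
    rw [← eval_aeval_eq, h, map_zero]

theorem prime_param [Infinite K] (φ : Fin N → MvPolynomial σ K) :
    (vanishingIdeal K (paramVariety φ)).IsPrime := by
  have : vanishingIdeal K (paramVariety φ) = RingHom.ker (aeval φ : _ →ₐ[K] MvPolynomial σ K) := by
    ext p
    rw [mem_vanishingIdeal_param, RingHom.mem_ker]
  rw [this]
  exact RingHom.ker_isPrime _

/-- If all coordinates of the parametrisation are forms of the same positive degree, then the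
vanishing ideal is homogeneous. -/
theorem homogeneous_param [Infinite K] (φ : Fin N → MvPolynomial σ K) (k : ℕ) (hk : 0 < k)
    (hφ : ∀ i, (φ i).IsHomogeneous k) (p : MvPolynomial (Fin N) K)
    (hp : p ∈ vanishingIdeal K (paramVariety φ)) (d : ℕ) :
    homogeneousComponent d p ∈ vanishingIdeal K (paramVariety φ) := by
  rw [mem_vanishingIdeal_param] at hp ⊢
  have h1 : ∀ i, aeval φ (homogeneousComponent i p) ∈ homogeneousSubmodule σ K (k * i) := by
    intro i
    exact (homogeneousComponent_isHomogeneous i p).aeval φ hφ
  have h2 : homogeneousComponent (k * d) (aeval φ p) =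
      ∑ i ∈ Finset.range (p.totalDegree + 1),
        homogeneousComponent (k * d) (aeval φ (homogeneousComponent i p)) := by
    conv_lhs => rw [← sum_homogeneousComponent p]
    rw [map_sum, map_sum]
  rw [hp, map_zero] at h2
  by_cases hd : d ∈ Finset.range (p.totalDegree + 1)
  · rw [Finset.sum_eq_single d] at h2
    · rw [homogeneousComponent_of_mem (h1 d), if_pos rfl] at h2
      exact h2.symm
    · intro b _ hb
      rw [homogeneousComponent_of_mem (h1 b), if_neg]
      intro h
      exact hb (Nat.eq_of_mul_eq_mul_left hk h).symm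
    · intro h
      exact absurd hd h
  · have : homogeneousComponent d p = 0 := by
      apply homogeneousComponent_eq_zero
      simp at hd
      omega
    rw [this, map_zero]

/-- The parametrisation of the secant variety. -/
noncomputable def secantParam (φ : Fin N → MvPolynomial σ K) (i : Fin N) :
    MvPolynomial (σ ⊕ σ) K :=
  rename Sum.inl (φ i) + rename Sum.inr (φ i)

theorem eval_secantParam (φ : Fin N → MvPolynomial σ K) (a b : σ → K) (i : Fin N) :
    eval (Sum.elim a b) (secantParam φ i) = eval a (φ i) + eval b (φ i) := by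
  simp [secantParam, eval_rename]

/-- The vanishing ideal of `{x + y : x, y ∈ closure of V}` is that of `{x + y : x, y ∈ V}`. -/
theorem vanishingIdeal_add_closure (V : Set (Fin N → K)) :
    vanishingIdeal K {w | ∃ x ∈ zariskiClosure V, ∃ y ∈ zariskiClosure V, x + y = w} =
      vanishingIdeal K {w | ∃ x ∈ V, ∃ y ∈ V, x + y = w} := by
  apply le_antisymm
  · apply vanishingIdeal_anti_mono
    rintro _ ⟨x, hx, y, hy, rfl⟩
    exact ⟨x, zeroLocus_vanishingIdeal_le V hx, y, zeroLocus_vanishingIdeal_le V hy, rfl⟩
  · intro p hp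
    rw [mem_vanishingIdeal_iff] at hp ⊢
    -- translation of a polynomial
    have tr : ∀ c : Fin N → K, ∃ q : MvPolynomial (Fin N) K, ∀ x : Fin N → K,
        aeval x q = aeval (x + c) p := by
      intro c
      refine ⟨aeval (fun i => X i + C (c i)) p, fun x => ?_⟩
      have e : ∀ (y : Fin N → K) (q : MvPolynomial (Fin N) K), aeval y q = eval y q := by
        intro y q
        rw [← MvPolynomial.coe_aeval_eq_eval]
        rfl
      rw [e, eval_aeval_eq]
      congr 2
      ext i
      simp
    have step1 : ∀ x ∈ zariskiClosure V, ∀ y ∈ V, aeval (x + y) p = 0 := by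
      intro x hx y hy
      obtain ⟨q, hq⟩ := tr y
      rw [← hq]
      apply hx
      rw [mem_vanishingIdeal_iff]
      intro z hz
      rw [hq]
      exact hp _ ⟨z, hz, y, hy, rfl⟩
    rintro _ ⟨x, hx, y, hy, rfl⟩
    obtain ⟨q, hq⟩ := tr x
    rw [add_comm, ← hq]
    apply hy
    rw [mem_vanishingIdeal_iff]
    intro z hz
    rw [hq, add_comm]
    exact step1 x hx z hz

theorem mem_vanishingIdeal_secant [Infinite K] (φ : Fin N → MvPolynomial σ K)
    (p : MvPolynomial (Fin N) K) :
    p ∈ vanishingIdeal K (secant (paramVariety φ)) ↔ aeval (secantParam φ) p = 0 := by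
  rw [secant, vanishingIdeal_zariskiClosure, paramVariety, vanishingIdeal_add_closure,
    mem_vanishingIdeal_iff]
  constructor
  · intro h
    apply MvPolynomial.funext
    intro a
    rw [eval_aeval_eq, map_zero]
    have ha : a = Sum.elim (a ∘ Sum.inl) (a ∘ Sum.inr) := by
      ext (i | i) <;> rfl
    rw [ha]
    simp only [eval_secantParam]
    exact h _ ⟨_, ⟨a ∘ Sum.inl, rfl⟩, _, ⟨a ∘ Sum.inr, rfl⟩, rfl⟩
  · rintro h _ ⟨_, ⟨a, rfl⟩, _, ⟨b, rfl⟩, rfl⟩
    have := congrArg (eval (Sum.elim a b)) h
    rw [eval_aeval_eq, map_zero] at this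
    simp only [eval_secantParam] at this
    exact this

theorem prime_secant [Infinite K] (φ : Fin N → MvPolynomial σ K) :
    (vanishingIdeal K (secant (paramVariety φ))).IsPrime := by
  have : vanishingIdeal K (secant (paramVariety φ)) =
      RingHom.ker (aeval (secantParam φ) : _ →ₐ[K] MvPolynomial (σ ⊕ σ) K) := by
    ext p
    rw [mem_vanishingIdeal_secant, RingHom.mem_ker]
  rw [this]
  exact RingHom.ker_isPrime _

/-- If a subfamily of `φ` is algebraically independent, polynomials in the corresponding variables
do not vanish at `φ`. -/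
theorem eq_zero_of_algebraicIndependent {A : Type*} [CommRing A] [Algebra K A] {n : ℕ}
    (φ : Fin N → A) (g : Fin n → Fin N)
    (h : AlgebraicIndependent K (φ ∘ g)) (E : Set (Fin N)) (hE : E ⊆ Set.range g)
    (p : MvPolynomial (Fin N) K) (hp : p ∈ supported K E) (h0 : aeval φ p = 0) : p = 0 := by
  have hp' := supported_mono (R := K) hE hp
  rw [supported_eq_range_rename] at hp'
  obtain ⟨q, rfl⟩ := hp'
  choose r hr using fun x : Set.range g => x.2
  have hq : rename (Subtype.val : Set.range g → Fin N) q = rename g (rename r q) := by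
    rw [rename_rename]
    have : (Subtype.val : Set.range g → Fin N) = g ∘ r := by
      funext x
      exact (hr x).symm
    rw [this]
  have h0' : aeval φ (rename g (rename r q)) = 0 := by
    rw [← hq]
    exact h0
  rw [aeval_rename] at h0'
  have := (algebraicIndependent_iff.mp h) _ h0'
  show rename (Subtype.val : Set.range g → Fin N) q = 0
  rw [hq, this, map_zero]

end Pool.Agent.H37.AlgMatroid
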