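import Mathlib
import Pool.Agent.H37.AlgMatroid

/-!
The toric fourfold `(s^4, s^3 t, s^2 t^2, s t^3, t^4, u^4, v^4, s t u v)` in `K^8`.
-/

namespace Pool.Agent.H37.TerraciniExample

open MvPolynomial Pool.Agent.H37.AlgMatroid

/-- Exponents of the eight monomials. -/
def ex : Fin 8 → Fin 4 → ℕ :=
  ![![4, 0, 0, 0], ![3, 1, 0, 0], ![2, 2, 0, 0], ![1, 3, 0, 0], ![0, 4, 0, 0],
    ![0, 0, 4, 0], ![0, 0, 0, 4], ![1, 1, 1, 1]]

/-- The first five elements of the ground set. -/
def A5 : Finset (Fin 8) := {0, 1, 2, 3, 4}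

/-- Combinatorial description of the independent sets of `M(X)`. -/
def P (E : Finset (Fin 8)) : Prop :=
  (E ∩ A5).card ≤ 2 ∧ E.card ≤ 4 ∧ ¬ (({2, 5, 6, 7} : Finset (Fin 8)) ⊆ E)

instance (E : Finset (Fin 8)) : Decidable (P E) := by unfold P; infer_instance

/-- The bases of `M(X)`. -/
def bases : List (Fin 4 → Fin 8) :=
  [![0,1,5,6], ![0,1,5,7], ![0,1,6,7], ![0,2,5,6], ![0,2,5,7], ![0,2,6,7],
   ![0,3,5,6], ![0,3,5,7], ![0,3,6,7], ![0,4,5,6], ![0,4,5,7], ![0,4,6,7],
   ![1,2,5,6], ![1,2,5,7], ![1,2,6,7], ![1,3,5,6], ![1,3,5,7], ![1,3,6,7],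
   ![1,4,5,6], ![1,4,5,7], ![1,4,6,7], ![2,3,5,6], ![2,3,5,7], ![2,3,6,7],
   ![2,4,5,6], ![2,4,5,7], ![2,4,6,7], ![3,4,5,6], ![3,4,5,7], ![3,4,6,7],
   ![0,5,6,7], ![1,5,6,7], ![3,5,6,7], ![4,5,6,7]]

/-- `E` is contained in the range of `g`. -/
def covers (E : Finset (Fin 8)) (g : Fin 4 → Fin 8) : Bool :=
  decide (∀ e ∈ E, ∃ i, g i = e)

theorem P_sub_bases : ∀ E : Finset (Fin 8), P E → (bases.any fun g => covers E g) = true := by
  decide +kernel

/-- Explicit 4x4 determinant. -/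
def det4 (M : Fin 4 → Fin 4 → ℤ) : ℤ :=
  let m3 (a b c : Fin 4) : ℤ :=
    M 1 a * (M 2 b * M 3 c - M 2 c * M 3 b) - M 1 b * (M 2 a * M 3 c - M 2 c * M 3 a)
      + M 1 c * (M 2 a * M 3 b - M 2 b * M 3 a)
  M 0 0 * m3 1 2 3 - M 0 1 * m3 0 2 3 + M 0 2 * m3 0 1 3 - M 0 3 * m3 0 1 2

theorem det_eq_det4 (M : Fin 4 → Fin 4 → ℤ) : (Matrix.of M).det = det4 M := by
  rw [Matrix.det_succ_row_zero]
  simp only [Fin.sum_univ_four, Matrix.det_fin_three]
  simp [det4, Fin.succAbove]
  ring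

theorem bases_det4 : (bases.all fun g => det4 (fun i j => (ex (g i) j : ℤ)) != 0) = true := by
  decide +kernel

/-- Binomial relations: pairs of exponent vectors with the same image. -/
def rels : List ((Fin 8 → ℕ) × (Fin 8 → ℕ)) :=
  [(![1,0,1,0,0,0,0,0], ![0,2,0,0,0,0,0,0]),
   (![2,0,0,1,0,0,0,0], ![0,3,0,0,0,0,0,0]),
   (![3,0,0,0,1,0,0,0], ![0,4,0,0,0,0,0,0]),
   (![1,0,0,2,0,0,0,0], ![0,0,3,0,0,0,0,0]),
   (![2,0,0,0,2,0,0,0], ![0,0,4,0,0,0,0,0]),
   (![1,0,0,0,3,0,0,0], ![0,0,0,4,0,0,0,0]),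
   (![0,1,0,1,0,0,0,0], ![0,0,2,0,0,0,0,0]),
   (![0,2,0,0,1,0,0,0], ![0,0,3,0,0,0,0,0]),
   (![0,1,0,0,2,0,0,0], ![0,0,0,3,0,0,0,0]),
   (![0,0,1,0,1,0,0,0], ![0,0,0,2,0,0,0,0]),
   (![0,0,2,0,0,1,1,0], ![0,0,0,0,0,0,0,4])]

/-- Each pair in `rels` is a relation between two different monomials. -/
theorem rels_ok : (rels.all fun r => decide (r.1 ≠ r.2) &&
    decide (∀ j, ∑ i, r.1 i * ex i j = ∑ i, r.2 i * ex i j)) = true := by
  decide +kernel

/-- The relation `r` only involves elements of `E`. -/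
def relOn (E : Finset (Fin 8)) (r : (Fin 8 → ℕ) × (Fin 8 → ℕ)) : Bool :=
  decide (∀ i, i ∉ E → r.1 i = 0 ∧ r.2 i = 0)

theorem notP_rel : ∀ E : Finset (Fin 8),
    (¬ (E ∩ A5).card ≤ 2 ∨ (({2, 5, 6, 7} : Finset (Fin 8)) ⊆ E)) →
      (rels.any fun r => relOn E r) = true := by
  decide +kernel

variable (K : Type*) [Field K]

/-- The parametrisation. -/
noncomputable def φ (i : Fin 8) : MvPolynomial (Fin 4) K :=
  monomial (Finsupp.equivFunOnFinite.symm (ex i)) 1

theorem eval_φ (a : Fin 4 → K) (i : Fin 8) : eval a (φ K i) = ∏ j, a j ^ ex i j := by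
  rw [φ, eval_monomial, one_mul, Finsupp.prod_fintype _ _ (fun i => pow_zero _)]
  rfl

theorem φ_homog (i : Fin 8) : (φ K i).IsHomogeneous 4 := by
  apply isHomogeneous_monomial
  rw [Finsupp.degree_eq_sum]
  have : ∀ i : Fin 8, ∑ j, ex i j = 4 := by decide
  exact this i

/-- The variety. -/
noncomputable def X8 : Set (Fin 8 → K) := paramVariety (φ K)

variable {K}

theorem not_indep_of_rel [Infinite K] (u v : Fin 8 → ℕ) (huv : u ≠ v)
    (h : ∀ j, ∑ i, u i * ex i j = ∑ i, v i * ex i j) (E : Finset (Fin 8))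
    (hE : ∀ i, i ∉ E → u i = 0 ∧ v i = 0) : ¬ Indep (X8 K) (E : Set (Fin 8)) := by
  intro hind
  set mu : Fin 8 →₀ ℕ := Finsupp.equivFunOnFinite.symm u with hmu
  set mv : Fin 8 →₀ ℕ := Finsupp.equivFunOnFinite.symm v with hmv
  have hne : mu ≠ mv := fun h => huv (Finsupp.equivFunOnFinite.symm.injective h)
  have h0 := hind (monomial mu (1 : K) - monomial mv (1 : K)) ?_ ?_
  · rw [sub_eq_zero] at h0
    exact hne (monomial_left_injective one_ne_zero h0)
  · rw [X8, mem_vanishingIdeal_param]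
    apply MvPolynomial.funext
    intro a
    have key : ∀ w : Fin 8 → ℕ, eval a (aeval (φ K) (monomial (Finsupp.equivFunOnFinite.symm w) (1 : K)))
        = ∏ j, a j ^ (∑ i, w i * ex i j) := by
      intro w
      rw [aeval_monomial, map_one, one_mul, Finsupp.prod_fintype _ _ (fun i => pow_zero _),
        map_prod]
      simp only [map_pow, eval_φ, Finsupp.equivFunOnFinite_symm_apply_apply]
      simp_rw [← Finset.prod_pow, ← pow_mul]
      rw [Finset.prod_comm]
      simp_rw [Finset.prod_pow_eq_pow_sum]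
      simp_rw [mul_comm]
    rw [map_sub, map_sub, hmu, hmv, key u, key v, map_zero, sub_eq_zero]
    simp_rw [h]
  · apply Subalgebra.sub_mem
    · rw [mem_supported, vars_monomial one_ne_zero]
      intro i hi
      by_contra hiE
      have := (hE i hiE).1
      simp [hmu] at hi
      exact hi this
    · rw [mem_supported, vars_monomial one_ne_zero]
      intro i hi
      by_contra hiE
      have := (hE i hiE).2
      simp [hmv] at hi
      exact hi this

/-- Evaluation of the partial derivatives at an integer point. -/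
def jac1 (x : Fin 4 → ℤ) (i : Fin 8) (j : Fin 4) : ℤ :=
  ex i j * ∏ k, x k ^ (ex i k - if k = j then 1 else 0)

theorem eval_pderiv_φ (x : Fin 4 → ℤ) (i : Fin 8) (j : Fin 4) :
    eval (fun k => (x k : K)) (pderiv j (φ K i)) = ((jac1 x i j : ℤ) : K) := by
  rw [φ, pderiv_monomial, eval_monomial, one_mul, Finsupp.prod_fintype _ _ (fun i => pow_zero _),
    jac1]
  push_cast
  congr 1
  apply Finset.prod_congr rfl
  intro k _
  congr 1
  simp [Finsupp.single_apply, eq_comm]

theorem det_cast {n : ℕ} (M : Matrix (Fin n) (Fin n) ℤ) :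
    (Matrix.of fun i j => ((M i j : ℤ) : K)).det = ((M.det : ℤ) : K) := by
  have : (Matrix.of fun i j => ((M i j : ℤ) : K)) = (Int.castRingHom K).mapMatrix M := by
    ext i j
    simp
  rw [this, ← RingHom.map_det]
  simp

theorem indep_of_P [CharZero K] (E : Finset (Fin 8)) (hE : P E) :
    Indep (X8 K) (E : Set (Fin 8)) := by
  have h1 := P_sub_bases E hE
  rw [List.any_eq_true] at h1
  obtain ⟨g, hg, hcov⟩ := h1
  have h2 := bases_det4
  rw [List.all_eq_true] at h2
  have h3 := h2 g hg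
  have hdet : (Matrix.of fun i j => (ex (g i) j : ℤ)).det ≠ 0 := by
    rw [det_eq_det4]
    simpa using h3
  have halg : AlgebraicIndependent K (φ K ∘ g) := by
    refine algebraicIndependent_of_jacobian (φ K ∘ g) id (fun _ => ((1 : ℤ) : K)) ?_
    have : (Matrix.of fun i j => eval (fun _ => ((1 : ℤ) : K)) (pderiv (id j) ((φ K ∘ g) i))) =
        Matrix.of fun i j => (((Matrix.of fun i j => (ex (g i) j : ℤ)) i j : ℤ) : K) := by
      ext i j
      simp only [Matrix.of_apply, Function.comp, id]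
      rw [eval_pderiv_φ (fun _ => 1)]
      congr 1
      simp [jac1]
    rw [this, det_cast]
    exact_mod_cast hdet
  intro p hp hpE
  rw [X8, mem_vanishingIdeal_param] at hp
  refine eq_zero_of_algebraicIndependent (φ K) g halg (E : Set (Fin 8)) ?_ p hpE hp
  intro e he
  have := (of_decide_eq_true hcov) e he
  obtain ⟨i, hi⟩ := this
  exact ⟨i, hi⟩

theorem P_of_indep [CharZero K] (E : Finset (Fin 8)) (hE : Indep (X8 K) (E : Set (Fin 8))) :
    P E := by
  have hno : ¬ (¬ (E ∩ A5).card ≤ 2 ∨ (({2, 5, 6, 7} : Finset (Fin 8)) ⊆ E)) := by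
    intro h
    have h1 := notP_rel E h
    rw [List.any_eq_true] at h1
    obtain ⟨r, hr, hon⟩ := h1
    have h2 := rels_ok
    rw [List.all_eq_true] at h2
    have h3 := h2 r hr
    rw [Bool.and_eq_true] at h3
    exact not_indep_of_rel r.1 r.2 (of_decide_eq_true h3.1) (of_decide_eq_true h3.2) E
      (of_decide_eq_true hon) hE
  push Not at hno
  refine ⟨hno.1, ?_, hno.2⟩
  -- transcendence degree bound
  have halg : AlgebraicIndependent K (φ K ∘ (Subtype.val : ↥(E : Set (Fin 8)) → Fin 8)) := by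
    rw [algebraicIndependent_comp_subtype]
    intro p hp h0
    apply hE p _ hp
    rw [X8, mem_vanishingIdeal_param]
    exact h0
  have := halg.lift_cardinalMk_le_trdeg
  rw [MvPolynomial.trdeg_of_isDomain] at this
  simp at this
  exact_mod_cast this

theorem indep_iff_P [CharZero K] (E : Finset (Fin 8)) :
    Indep (X8 K) (E : Set (Fin 8)) ↔ P E := ⟨P_of_indep E, indep_of_P E⟩

/-! ### The secant variety -/

/-- Seven of the eight parameters of the secant variety. -/
def cols : Fin 7 → Fin 4 ⊕ Fin 4 :=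
  ![Sum.inl 0, Sum.inl 1, Sum.inr 0, Sum.inr 1, Sum.inl 2, Sum.inl 3, Sum.inr 2]

/-- First integer point. -/
def x1 : Fin 4 → ℤ := ![1, 1, 1, 1]

/-- Second integer point. -/
def x2 : Fin 4 → ℤ := ![1, 2, 1, 1]

/-- Jacobian matrix of the parametrisation of the secant variety at an integer point. -/
def jac2 (i : Fin 8) (c : Fin 4 ⊕ Fin 4) : ℤ := Sum.elim (jac1 x1 i) (jac1 x2 i) c

/-- The ground set without the element `j`, for `j` in the first five elements. -/
def rows (j : Fin 5) : Fin 7 → Fin 8 := (Fin.castLE (by omega) j : Fin 8).succAbove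

/-- Scaled inverses of the five maximal minors. -/
def invs : Fin 5 → Fin 7 → Fin 7 → ℤ :=
  ![![![0, 16, -16, 4, 0, 0, 0],
      ![-64, 144, -96, 20, 0, 0, 0],
      ![12, -29, 22, -5, 0, 0, 0],
      ![8, -18, 12, -2, 0, 0, 0],
      ![-32, 84, -56, 12, 8, 4, -16],
      ![0, 0, 0, 0, 0, 4, 0],
      ![32, -84, 56, -12, -4, -4, 16]],
    ![![0, 12, -12, 3, 0, 0, 0],
      ![-16, 56, -48, 11, 0, 0, 0],
      ![3, -12, 12, -3, 0, 0, 0],
      ![2, -7, 6, -1, 0, 0, 0],
      ![-8, 37, -30, 7, 6, 3, -12],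
      ![0, 0, 0, 0, 0, 3, 0],
      ![8, -37, 30, -7, -3, -3, 12]],
    ![![-16, 48, -28, 9, 0, 0, 0],
      ![-144, 224, -96, 29, 0, 0, 0],
      ![29, -48, 28, -9, 0, 0, 0],
      ![18, -28, 12, -2, 0, 0, 0],
      ![-84, 148, -56, 18, 26, 13, -52],
      ![0, 0, 0, 0, 0, 13, 0],
      ![84, -148, 56, -18, -13, -13, 52]],
    ![![-8, 24, -14, 1, 0, 0, 0],
      ![-48, 96, -48, 3, 0, 0, 0],
      ![11, -24, 14, -1, 0, 0, 0],
      ![6, -12, 6, 0, 0, 0, 0],
      ![-28, 60, -28, 2, 6, 3, -12],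
      ![0, 0, 0, 0, 0, 3, 0],
      ![28, -60, 28, -2, -3, -3, 12]],
    ![![-4, 12, -9, 2, 0, 0, 0],
      ![-20, 44, -29, 6, 0, 0, 0],
      ![5, -12, 9, -2, 0, 0, 0],
      ![2, -4, 2, 0, 0, 0, 0],
      ![-12, 28, -18, 4, 2, 1, -4],
      ![0, 0, 0, 0, 0, 1, 0],
      ![12, -28, 18, -4, -1, -1, 4]]]

/-- The scaling factors. -/
def scal : Fin 5 → ℤ := ![16, 12, 52, 12, 4]

theorem inv_ok : ∀ j : Fin 5, ∀ a b : Fin 7,
    ∑ c, jac2 (rows j a) (cols c) * invs j c b = if a = b then scal j else 0 := by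
  decide +kernel

theorem scal_ne : ∀ j : Fin 5, scal j ≠ 0 := by decide

theorem minor_ne_zero (j : Fin 5) :
    (Matrix.of fun a c => jac2 (rows j a) (cols c)).det ≠ 0 := by
  intro h
  have h1 : (Matrix.of fun a c => jac2 (rows j a) (cols c)) * (Matrix.of (invs j)) =
      scal j • (1 : Matrix (Fin 7) (Fin 7) ℤ) := by
    ext a b
    rw [Matrix.mul_apply]
    simp only [Matrix.of_apply]
    rw [inv_ok]
    simp [Matrix.one_apply]
  have h2 := congrArg Matrix.det h1
  rw [Matrix.det_mul, h, zero_mul, Matrix.det_smul, Matrix.det_one, mul_one] at h2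
  exact pow_ne_zero _ (scal_ne j) h2.symm

/-- The integer point used for the secant variety. -/
def pt : Fin 4 ⊕ Fin 4 → ℤ := Sum.elim x1 x2

theorem pderiv_rename_of_notMem {σ τ : Type*} (f : σ → τ) (t : τ) (ht : t ∉ Set.range f)
    (p : MvPolynomial σ K) : pderiv t (rename f p) = 0 := by
  classical
  apply pderiv_eq_zero_of_notMem_vars
  intro h
  have := vars_rename f p h
  rw [Finset.mem_image] at this
  obtain ⟨a, -, rfl⟩ := this
  exact ht ⟨a, rfl⟩

theorem eval_pderiv_secantParam (i : Fin 8) (c : Fin 4 ⊕ Fin 4) :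
    eval (fun k => (pt k : K)) (pderiv c (secantParam (φ K) i)) = ((jac2 i c : ℤ) : K) := by
  rw [secantParam, map_add]
  rcases c with c | c
  · rw [pderiv_rename Sum.inl_injective, pderiv_rename_of_notMem Sum.inr _ (by simp), add_zero,
      eval_rename, jac2, Sum.elim_inl]
    exact eval_pderiv_φ x1 i c
  · rw [pderiv_rename Sum.inr_injective, pderiv_rename_of_notMem Sum.inl _ (by simp), zero_add,
      eval_rename, jac2, Sum.elim_inr]
    exact eval_pderiv_φ x2 i c

theorem secant_alg [CharZero K] (j : Fin 5) :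
    AlgebraicIndependent K (secantParam (φ K) ∘ rows j) := by
  refine algebraicIndependent_of_jacobian _ cols (fun k => (pt k : K)) ?_
  have : (Matrix.of fun a c => eval (fun k => (pt k : K))
      (pderiv (cols c) ((secantParam (φ K) ∘ rows j) a))) =
      Matrix.of fun a c => (((Matrix.of fun a c => jac2 (rows j a) (cols c)) a c : ℤ) : K) := by
    ext a c
    simp only [Matrix.of_apply, Function.comp]
    rw [eval_pderiv_secantParam]
  rw [this, det_cast]
  exact_mod_cast minor_ne_zero j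

theorem A5_elem : ∀ E : Finset (Fin 8), ¬ A5 ⊆ E →
    ∃ j : Fin 5, ∀ e ∈ E, ∃ i, rows j i = e := by
  decide +kernel

theorem secant_indep [CharZero K] (E : Finset (Fin 8)) (hE : ¬ A5 ⊆ E) :
    Indep (secant (X8 K)) (E : Set (Fin 8)) := by
  obtain ⟨j, hj⟩ := A5_elem E hE
  intro p hp hpE
  rw [X8, mem_vanishingIdeal_secant] at hp
  exact eq_zero_of_algebraicIndependent (secantParam (φ K)) (rows j) (secant_alg j)
    (E : Set (Fin 8)) (fun e he => hj e he) p hpE hp

/-- The Hankel determinant. -/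
noncomputable def hankel (K : Type*) [Field K] : MvPolynomial (Fin 8) K :=
  X 0 * X 2 * X 4 + 2 * (X 1 * X 2 * X 3) - X 2 ^ 3 - X 0 * X 3 ^ 2 - X 1 ^ 2 * X 4

theorem hankel_ne_zero : hankel K ≠ 0 := by
  intro h
  have := congrArg (eval (fun i : Fin 8 => if i = 0 ∨ i = 3 then (1 : K) else 0)) h
  simp [hankel] at this

theorem hankel_mem : hankel K ∈ supported K ((A5 : Finset (Fin 8)) : Set (Fin 8)) := by
  have hX : ∀ i : Fin 8, i ∈ A5 → (X i : MvPolynomial (Fin 8) K) ∈
      supported K ((A5 : Finset (Fin 8)) : Set (Fin 8)) := by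
    intro i hi
    rw [X_mem_supported]
    exact hi
  have h0 := hX 0 (by decide)
  have h1 := hX 1 (by decide)
  have h2 := hX 2 (by decide)
  have h3 := hX 3 (by decide)
  have h4 := hX 4 (by decide)
  unfold hankel
  refine Subalgebra.sub_mem _ (Subalgebra.sub_mem _ (Subalgebra.sub_mem _ (Subalgebra.add_mem _
    ?_ ?_) ?_) ?_) ?_
  · exact Subalgebra.mul_mem _ (Subalgebra.mul_mem _ h0 h2) h4
  · refine Subalgebra.mul_mem _ ?_ (Subalgebra.mul_mem _ (Subalgebra.mul_mem _ h1 h2) h3)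
    exact Subalgebra.natCast_mem _ 2
  · exact Subalgebra.pow_mem _ h2 _
  · exact Subalgebra.mul_mem _ h0 (Subalgebra.pow_mem _ h3 _)
  · exact Subalgebra.mul_mem _ (Subalgebra.pow_mem _ h1 _) h4

theorem hankel_vanishes [Infinite K] :
    hankel K ∈ vanishingIdeal K (secant (X8 K)) := by
  rw [X8, mem_vanishingIdeal_secant]
  apply MvPolynomial.funext
  intro a
  have ha : a = Sum.elim (a ∘ Sum.inl) (a ∘ Sum.inr) := by
    ext (i | i) <;> rfl
  rw [eval_aeval_eq, map_zero, ha]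
  simp only [eval_secantParam, eval_φ]
  simp [hankel, ex, Fin.prod_univ_four]
  ring

theorem secant_indep_iff [CharZero K] (E : Finset (Fin 8)) :
    Indep (secant (X8 K)) (E : Set (Fin 8)) ↔ ¬ A5 ⊆ E := by
  refine ⟨?_, secant_indep E⟩
  intro h hA
  exact hankel_ne_zero (h _ hankel_vanishes (supported_mono (by exact_mod_cast hA) hankel_mem))

end Pool.Agent.H37.TerraciniExample
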